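import Pool.Agent.H32.PCAErg
import Pool.Agent.H32.Peierls

set_option autoImplicit false
open MeasureTheory ProbabilityTheory Filter Topology
open scoped ENNReal NNReal Pointwise
open Pool.Agent.H32.PCA

namespace Pool.Agent.Results.MP_417bbc_pr.Biased

/-- The five-site nearest-neighbour neighbourhood. -/
def N5 : Finset (Fin 2 → ℤ) := {![0, 0], ![1, 0], ![-1, 0], ![0, 1], ![0, -1]}

/-- The symbol held by at least three of the five sites. -/
def maj (u : N5 → Bool) : Bool := decide (3 ≤ (Finset.univ.filter fun v => u v = true).card)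

open Pool.Agent.H32.Peierls (box mem_box)

def Q (v : Fin 2 → ℤ) : Finset (Fin 2 → ℤ) := {v, v + ![1, 0], v + ![0, 1], v + ![1, 1]}

lemma maj_cell {x : (Fin 2 → ℤ) → Bool} {v w : Fin 2 → ℤ} (hx : ∀ k ∈ Q v, x k = true)
    (hw : w ∈ Q v) : maj (fun n : N5 => x (w + n)) = true := by
  have key : ∀ a b : N5, w + a ∈ Q v → w + b ∈ Q v → a.1 ≠ ![0, 0] → b.1 ≠ ![0, 0] → a.1 ≠ b.1 →
      maj (fun n : N5 => x (w + n)) = true := by
    intro a b ha hb h1 h2 h3
    have : w + ![0, 0] = w := by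
      ext i
      fin_cases i <;> simp only [Pi.add_apply] <;> simp
    refine decide_eq_true (Finset.two_lt_card_iff.2 ⟨a, b, ⟨![0, 0], by decide⟩,
      Finset.mem_filter.2 ⟨Finset.mem_univ _, hx _ ha⟩,
      Finset.mem_filter.2 ⟨Finset.mem_univ _, hx _ hb⟩,
      Finset.mem_filter.2 ⟨Finset.mem_univ _, hx _ (by rwa [this])⟩,
      fun h => h3 (congrArg Subtype.val h), fun h => h1 (congrArg Subtype.val h),
      fun h => h2 (congrArg Subtype.val h)⟩)
  simp only [Q, Finset.mem_insert, Finset.mem_singleton] at hw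
  rcases hw with rfl | rfl | rfl | rfl
  · refine key ⟨![1, 0], by decide⟩ ⟨![0, 1], by decide⟩ ?_ ?_ (by decide) (by decide) (by decide) <;>
      simp [Q]
  · refine key ⟨![-1, 0], by decide⟩ ⟨![0, 1], by decide⟩ ?_ ?_ (by decide) (by decide) (by decide) <;>
      simp [Q, add_assoc, funext_iff, Fin.forall_fin_two, Matrix.vecHead, Matrix.vecTail]
  · refine key ⟨![1, 0], by decide⟩ ⟨![0, -1], by decide⟩ ?_ ?_ (by decide) (by decide) (by decide) <;>
      simp [Q, add_assoc, funext_iff, Fin.forall_fin_two, Matrix.vecHead, Matrix.vecTail]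
  · refine key ⟨![-1, 0], by decide⟩ ⟨![0, -1], by decide⟩ ?_ ?_ (by decide) (by decide) (by decide) <;>
      simp [Q, add_assoc, funext_iff, Fin.forall_fin_two, Matrix.vecHead, Matrix.vecTail]

local instance mOpt : MeasurableSpace (Option Bool) := ⊤

noncomputable def noise (α β : ℝ≥0) (h : α + β ≤ 1) : PMF (Option Bool) :=
  PMF.ofFintype (fun w => match w with
    | none => ((1 - (α + β) : ℝ≥0) : ℝ≥0∞)
    | some true => α
    | some false => β) (by
      rw [Fintype.sum_option, Fintype.sum_bool, ← ENNReal.coe_add, ← ENNReal.coe_add,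
        tsub_add_cancel_of_le h, ENNReal.coe_one])

noncomputable def th (α β : ℝ≥0) (h : α + β ≤ 1) (a : Bool) : PMF Bool :=
  (noise α β h).map fun w => w.getD a

noncomputable def G (α β : ℝ≥0) (h : α + β ≤ 1) (u : N5 → Bool × Bool) : Measure (Bool × Bool) :=
  ((noise α β h).map fun w =>
    (w.getD (maj fun v => (u v).1), w.getD (maj fun v => (u v).2))).toMeasure

instance (α β : ℝ≥0) (h : α + β ≤ 1) (u : N5 → Bool × Bool) : IsProbabilityMeasure (G α β h u) := by
  unfold G
  infer_instance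

lemma G_apply (α β : ℝ≥0) (h : α + β ≤ 1) (u : N5 → Bool × Bool) (s : Set (Bool × Bool)) :
    G α β h u s = s.indicator 1 (maj fun v => (u v).1, maj fun v => (u v).2) *
      ((1 - (α + β) : ℝ≥0) : ℝ≥0∞) + (s.indicator 1 (true, true) * α +
        s.indicator 1 (false, false) * β) := by
  classical
  rw [G, PMF.toMeasure_map_apply _ _ _ Measurable.of_discrete MeasurableSet.of_discrete,
    PMF.toMeasure_apply_fintype, Fintype.sum_option, Fintype.sum_bool]
  simp [Set.indicator, noise]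

lemma bad_le (α β : ℝ≥0) (h : α + β ≤ 1) (v : Fin 2 → ℤ) (t : ℕ)
    (M : Measure ((Fin 2 → ℤ) → Bool × Bool)) [IsProbabilityMeasure M] :
    evolve N5 (G α β h) t M (cyl (Q v) fun _ => (true, true))ᶜ ≤
      ((1 - α ^ 4 : ℝ≥0) : ℝ≥0∞) ^ t + t * (4 * β) := by
  have mC := (measurableSet_cyl (Q v) fun _ : Fin 2 → ℤ => (true, true)).compl
  have hQ : (Q v).card ≤ 4 := Finset.card_le_four
  have hα : α ≤ 1 := le_self_add.trans h
  have hk : ∀ z, ker N5 (G α β h) z (cyl (Q v) fun _ => (true, true))ᶜ ≤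
      ((1 - α ^ 4 : ℝ≥0) : ℝ≥0∞) * (cyl (Q v) fun _ => (true, true))ᶜ.indicator 1 z + 4 * β := by
    intro z
    by_cases hz : z ∈ cyl (Q v) fun _ => (true, true)
    · refine le_add_left ((measure_mono (t := ⋃ w ∈ Q v, {y | y w ≠ (true, true)}) ?_).trans
        ((measure_biUnion_finset_le _ _).trans ((Finset.sum_le_card_nsmul _ _ (β : ℝ≥0∞)
          fun w hw => ?_).trans ?_)))
      · intro y hy
        simpa [cyl] using hy
      · have h1 := (measurePreserving_eval_infinitePi
          (fun k => G α β h fun n : N5 => z (k + n)) w).measure_preimage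
          (MeasurableSet.of_discrete (s := {a | a ≠ (true, true)})).nullMeasurableSet
        refine h1.le.trans ?_
        rw [G_apply, maj_cell (x := fun k => (z k).1) (fun k hk => by rw [hz k hk]) hw,
          maj_cell (x := fun k => (z k).2) (fun k hk => by rw [hz k hk]) hw]
        simp
      · rw [nsmul_eq_mul]
        exact mul_le_mul_left (by exact_mod_cast hQ) _
    · refine le_add_right ?_
      rw [Set.indicator_of_mem (Set.mem_compl hz), Pi.one_apply, mul_one,
        prob_compl_eq_one_sub (measurableSet_cyl _ _), ENNReal.coe_sub, ENNReal.coe_one]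
      refine tsub_le_tsub_left ?_ _
      rw [cyl_eq_pi, H32.PCA.ker, Measure.infinitePi_pi _ fun _ _ => MeasurableSet.of_discrete]
      refine le_trans ?_ (Finset.pow_card_le_prod _ _ (α : ℝ≥0∞) fun w _ => ?_)
      · rw [ENNReal.coe_pow]
        exact pow_le_pow_right_of_le_one' (by exact_mod_cast hα) hQ
      · rw [G_apply]
        exact le_add_left (by simp)
  induction t with
  | zero => simpa [evolve] using prob_le_one
  | succ t ih =>
    rw [evolve_succ_apply _ _ mC]
    refine (lintegral_mono hk).trans ?_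
    rw [lintegral_add_right _ measurable_const, lintegral_const_mul _ (measurable_one.indicator mC),
      lintegral_indicator_one mC, lintegral_const, measure_univ, mul_one, pow_succ' _ t, Nat.cast_succ,
      add_one_mul, ← add_assoc]
    refine add_le_add_left ((mul_le_mul_right ih _).trans ?_) _
    rw [mul_add]
    exact add_le_add_right (mul_le_of_le_one_left' (ENNReal.coe_le_one_iff.2 tsub_le_self)) _

lemma dep (α β : ℝ≥0) (h : α + β ≤ 1) (v : Fin 2 → ℤ) (t : ℕ) :
    DependsOn ((T N5 (G α β h))^[t] ((dis v).indicator 1)) (({v} + box t : Finset _) : Set _) := by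
  induction t with
  | zero =>
    intro x y hxy
    have : x v = y v := hxy v (by
      rw [Finset.mem_coe]
      exact Finset.mem_add.2 ⟨v, by simp, 0, by simp [mem_box], add_zero v⟩)
    simp [Set.indicator, dis, this]
  | succ t ih =>
    rw [Function.iterate_succ_apply']
    refine (dependsOn_T N5 _ ih).mono (Finset.coe_subset.2 ?_)
    rw [add_assoc]
    refine Finset.add_subset_add_left fun w hw => ?_
    obtain ⟨a, ha, c, hc, rfl⟩ := Finset.mem_add.1 hw
    simp only [N5, Finset.mem_insert, Finset.mem_singleton] at hc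
    rcases hc with rfl | rfl | rfl | rfl | rfl <;>
      simp [mem_box, Matrix.vecHead, Matrix.vecTail] at ha ⊢ <;> omega

lemma consts (α : ℝ≥0) (h0 : 0 < α) : ∃ (t : ℕ) (β : ℝ≥0), 0 < β ∧ β ≤ α ∧
    (((2 * t + 1) ^ 2 : ℕ) : ℝ≥0) * ((1 - α ^ 4) ^ t + t * (4 * β)) < 1 := by
  have hq : 1 - α ^ 4 < 1 := tsub_lt_self one_pos (pow_pos h0 4)
  set q := 1 - α ^ 4
  have h2 := (tendsto_pow_const_mul_const_pow_of_abs_lt_one 2 (r := (q : ℝ))
    (by rw [abs_of_nonneg q.coe_nonneg]; exact_mod_cast hq)).eventually (gt_mem_nhds (show (0 : ℝ) < 1 / 18 by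
      norm_num))
  obtain ⟨t, ht, ht1⟩ := (h2.and (eventually_ge_atTop 1)).exists
  have ht2 : (1 : ℝ) ≤ t := by exact_mod_cast ht1
  refine ⟨t, min α (1 / (72 * t ^ 3)), lt_min h0 (by positivity), min_le_left _ _, ?_⟩
  have hb : ((min α (1 / (72 * t ^ 3)) : ℝ≥0) : ℝ) ≤ 1 / (72 * t ^ 3) := by
    exact_mod_cast min_le_right _ _
  rw [← NNReal.coe_lt_coe]
  push_cast at hb ⊢
  set b := min (α : ℝ) (1 / (72 * t ^ 3))
  have hb0 : 0 ≤ b := le_min α.2 (by positivity)
  rw [le_div_iff₀ (by positivity)] at hb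
  have h9 : (2 * (t : ℝ) + 1) ^ 2 ≤ 9 * t ^ 2 := by nlinarith
  have hq0 : 0 ≤ (q : ℝ) ^ t := by positivity
  calc _ ≤ 9 * t ^ 2 * ((q : ℝ) ^ t + t * (4 * b)) := by gcongr
    _ < 1 := by nlinarith

theorem result (ε₀ : ℝ) (hε : 0 < ε₀) : ∃ θ : Bool → PMF Bool, (∀ a b, 0 < θ a b) ∧
    (∀ a, 1 - (θ a a).toReal ≤ ε₀) ∧ ∃ π : Measure ((Fin 2 → ℤ) → Bool),
      IsErgodic N5 (fun u => (θ (maj u)).toMeasure) π := by
  obtain ⟨α, h0, h1, h2⟩ : ∃ α : ℝ≥0, 0 < α ∧ α ≤ 1 / 2 ∧ (α : ℝ) ≤ ε₀ :=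
    ⟨min (1 / 2) ⟨ε₀, hε.le⟩, lt_min (by norm_num) hε, min_le_left _ _, min_le_right _ _⟩
  obtain ⟨t, β, hβ, hβα, hc⟩ := consts α h0
  have h : α + β ≤ 1 := (add_le_add h1 (hβα.trans h1)).trans (by norm_num)
  have hth : ∀ a b, th α β h a b = (if b = a then ((1 - (α + β) : ℝ≥0) : ℝ≥0∞) else 0) +
      (if b = true then α else β : ℝ≥0) := by
    intro a b
    rw [th, PMF.map_apply, tsum_fintype, Fintype.sum_option, Fintype.sum_bool]
    cases b <;> simp [noise]
  refine ⟨th α β h, fun a b => ?_, fun a => ?_, isErgodic_of_block N5 _ (fun _ => true) (G α β h)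
    (fun u => ?_) (fun u => ?_) (fun u hu => ?_) t ((2 * t + 1) ^ 2)
    (((1 - α ^ 4 : ℝ≥0) : ℝ≥0∞) ^ t + t * (4 * β)) (by exact_mod_cast hc)
    (fun v => ⟨_, ?_, dep α β h v t⟩) fun v z => le_trans (measure_mono ?_) (bad_le α β h v t _)⟩
  · rw [hth]
    refine lt_of_lt_of_le ?_ le_add_self
    split_ifs <;> exact_mod_cast (by assumption)
  · rw [hth, if_pos rfl, ← ENNReal.coe_add, ENNReal.coe_toReal, NNReal.coe_add, NNReal.coe_sub h]
    have : (β : ℝ) ≤ α := hβα
    split_ifs <;> push_cast <;> linarith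
  · rw [G, PMF.toMeasure_map _ _ Measurable.of_discrete, PMF.map_comp]
    rfl
  · rw [G, PMF.toMeasure_map _ _ Measurable.of_discrete, PMF.map_comp]
    rfl
  · rw [G_apply]
    simp [funext hu]
  · rw [Finset.card_singleton_add, box, Fintype.card_piFinset]
    simp only [Int.card_Icc, Finset.prod_const, Finset.card_univ, Fintype.card_fin]
    exact Nat.pow_le_pow_left (by omega) 2
  · intro y hy hc
    apply hy
    rw [hc v (by simp [Q])]

end Pool.Agent.Results.MP_417bbc_pr.Biased
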